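import Mathlib

set_option autoImplicit false

/-!
# There is no universal countable right-orderable group

For a set `S` of natural numbers let `h_S` be the automorphism of the chain `ℤ × ℚ` (lexicographic
order) which is `x ↦ x + 1` on `{0} × ℚ`, which is `x ↦ 2 x` on `{2 j + 1} × ℚ` for `j ∈ S`, and
which is the identity elsewhere, and let `τ` be the shift `(k, x) ↦ (k + 1, x)`. Then `h_S` commutes
with `τ^(2j+1) h_S τ^-(2j+1)` if and only if `j ∉ S`. The group generated by `τ` and `h_S` is
right-orderable, since it consists of automorphisms of a chain. If all these groups embed into `U`,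
then the images of the pairs `(τ, h_S)` are pairwise different, so `U` is uncountable.
-/

namespace Pool.Agent.Results.MP_49314d_al.NoUniversalH61

/-- A group is right-orderable if it has a total order `≤` such that `x ≤ y` implies
`x z ≤ y z`. -/
def RightOrderable (G : Type) [Group G] : Prop :=
  ∃ _ : LinearOrder G, ∀ x y z : G, x ≤ y → x * z ≤ y * z

/-- `U` is a universal countable right-orderable group: it is countable and right-orderable, and
every countable right-orderable group is isomorphic to a subgroup of `U`. -/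
def IsUniversalCountableRightOrderable (U : Type) [Group U] : Prop :=
  Countable U ∧ RightOrderable U ∧ ∀ (G : Type) [Group G], Countable G → RightOrderable G →
    ∃ H : Subgroup U, Nonempty (G ≃* H)

/-- the chain `ℤ × ℚ` -/
abbrev Ω : Type := ℤ ×ₗ ℚ

instance : Countable Ω := inferInstanceAs (Countable (ℤ × ℚ))

/-- a group generated by a countable set is countable -/
theorem countable_closure {G : Type} [Group G] (s : Set G) [Countable s] :
    Countable (Subgroup.closure s) := by
  have h1 : Countable (FreeGroup s) := inferInstanceAs (Countable (Quot _))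
  rw [FreeGroup.closure_eq_range]
  exact (FreeGroup.lift (Subtype.val : s → G)).rangeRestrict_surjective.countable

theorem RightOrderable.of_injective {G H : Type} [Group G] [Group H] (hH : RightOrderable H)
    (f : G →* H) (hf : Function.Injective f) : RightOrderable G := by
  obtain ⟨_, h⟩ := hH
  refine ⟨LinearOrder.lift' f hf, fun x y z hxy => ?_⟩
  change f (x * z) ≤ f (y * z)
  rw [map_mul, map_mul]
  exact h _ _ _ hxy

/-- the automorphism group of a countable chain is right-orderable -/
theorem rightOrderable_aut (X : Type) [LinearOrder X] [Countable X] [Nonempty X] :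
    RightOrderable (X ≃o X) := by
  obtain ⟨e, he⟩ := exists_surjective_nat X
  let F : (X ≃o X) → Lex (ℕ → X) := fun x => toLex (fun n => x⁻¹ (e n))
  have hF : Function.Injective F := by
    intro x y hxy
    have h1 : ∀ a, x⁻¹ a = y⁻¹ a := by
      intro a
      obtain ⟨n, rfl⟩ := he a
      exact congrFun (congrArg ofLex hxy) n
    have h2 : x⁻¹ = y⁻¹ := by
      ext a
      exact h1 a
    exact inv_injective h2
  refine ⟨LinearOrder.lift' F hF, fun x y z hxy => ?_⟩
  change F (x * z) ≤ F (y * z)
  have hxy' : F x ≤ F y := hxy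
  rcases hxy'.lt_or_eq with h | h
  · apply le_of_lt
    obtain ⟨i, hi, hlt⟩ := h
    refine ⟨i, fun j hj => ?_, ?_⟩
    · have := hi j hj
      change (x * z)⁻¹ (e j) = (y * z)⁻¹ (e j)
      rw [mul_inv_rev, mul_inv_rev]
      exact congrArg (fun a => z⁻¹ a) this
    · change (x * z)⁻¹ (e i) < (y * z)⁻¹ (e i)
      rw [mul_inv_rev, mul_inv_rev]
      exact (z⁻¹).lt_iff_lt.2 hlt
  · rw [hF h]

/-- the automorphism of the chain which is `φ k` on `{k} × ℚ` -/
def fib (φ : ℤ → (ℚ ≃o ℚ)) : Ω ≃o Ω where
  toFun p := toLex ((ofLex p).1, φ (ofLex p).1 (ofLex p).2)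
  invFun p := toLex ((ofLex p).1, (φ (ofLex p).1).symm (ofLex p).2)
  left_inv p := by simp
  right_inv p := by simp
  map_rel_iff' {p q} := by
    simp only [Equiv.coe_fn_mk, Prod.Lex.toLex_le_toLex']
    rw [Prod.Lex.le_iff]
    constructor
    · rintro ⟨h1, h2⟩
      rcases h1.lt_or_eq with h | h
      · exact Or.inl h
      · refine Or.inr ⟨h, ?_⟩
        have h3 := h2 h
        rw [h] at h3
        exact (φ _).le_iff_le.1 h3
    · rintro (h | ⟨h1, h2⟩)
      · exact ⟨h.le, fun h' => absurd h' h.ne⟩
      · refine ⟨h1.le, fun _ => ?_⟩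
        rw [h1]
        exact (φ _).le_iff_le.2 h2

/-- the shift of the chain -/
def shift : Ω ≃o Ω where
  toFun p := toLex ((ofLex p).1 + 1, (ofLex p).2)
  invFun p := toLex ((ofLex p).1 - 1, (ofLex p).2)
  left_inv p := by simp
  right_inv p := by simp
  map_rel_iff' {p q} := by
    simp only [Equiv.coe_fn_mk, Prod.Lex.toLex_le_toLex]
    rw [Prod.Lex.le_iff]
    simp

theorem fib_apply (φ : ℤ → (ℚ ≃o ℚ)) (k : ℤ) (x : ℚ) :
    fib φ (toLex (k, x)) = toLex (k, φ k x) := rfl

theorem shift_apply (k : ℤ) (x : ℚ) : shift (toLex (k, x)) = toLex (k + 1, x) := rfl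

theorem fib_mul (φ ψ : ℤ → (ℚ ≃o ℚ)) : fib φ * fib ψ = fib (fun k => φ k * ψ k) := by
  ext p
  rfl

theorem fib_injective : Function.Injective fib := by
  intro φ ψ h
  funext k
  ext x
  have h1 : fib φ (toLex (k, x)) = fib ψ (toLex (k, x)) := by rw [h]
  rw [fib_apply, fib_apply] at h1
  exact congrArg (fun p : Ω => (ofLex p).2) h1

theorem shift_fib (φ : ℤ → (ℚ ≃o ℚ)) : shift * fib φ = fib (fun k => φ (k - 1)) * shift := by
  refine DFunLike.ext _ _ fun p => ?_
  obtain ⟨k, x⟩ := p
  change (toLex (k + 1, φ k x) : Ω) = toLex (k + 1, φ (k + 1 - 1) x)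
  rw [add_sub_cancel_right]

theorem shift_pow_fib (n : ℕ) (φ : ℤ → (ℚ ≃o ℚ)) :
    shift ^ n * fib φ = fib (fun k => φ (k - n)) * shift ^ n := by
  induction n generalizing φ with
  | zero => simp
  | succ n ih =>
    rw [pow_succ, mul_assoc, shift_fib, ← mul_assoc, ih, mul_assoc, ← pow_succ]
    congr 2
    funext k
    congr 1
    push_cast
    ring

theorem conj_fib (n : ℕ) (φ : ℤ → (ℚ ≃o ℚ)) :
    shift ^ n * fib φ * (shift ^ n)⁻¹ = fib (fun k => φ (k - n)) := by
  rw [shift_pow_fib, mul_inv_cancel_right]

/-- the translation `x ↦ x + 1` -/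
def tr : ℚ ≃o ℚ := OrderIso.addRight 1

/-- the dilation `x ↦ 2 x` -/
def di : ℚ ≃o ℚ := OrderIso.mulLeft₀ 2 (by norm_num)

theorem not_commute : di * tr ≠ tr * di := by
  intro h
  have h1 : (di * tr) 0 = (tr * di) 0 := by rw [h]
  change (2 : ℚ) * (0 + 1) = 2 * 0 + 1 at h1
  norm_num at h1

open Classical in
/-- the automorphisms of the fibres for the set `S` -/
noncomputable def fam (S : Set ℕ) (k : ℤ) : ℚ ≃o ℚ :=
  if k = 0 then tr else if ∃ j ∈ S, k = 2 * (j : ℤ) + 1 then di else 1

theorem fam_zero (S : Set ℕ) : fam S 0 = tr := by simp [fam]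

theorem fam_pos {S : Set ℕ} {j : ℕ} (h : j ∈ S) : fam S (2 * j + 1) = di := by
  unfold fam
  rw [if_neg (by omega), if_pos ⟨j, h, rfl⟩]

theorem fam_ne_one {S : Set ℕ} {k : ℤ} (h : fam S k ≠ 1) :
    k = 0 ∨ ∃ j ∈ S, k = 2 * (j : ℤ) + 1 := by
  unfold fam at h
  by_contra hcon
  push Not at hcon
  rw [if_neg hcon.1, if_neg] at h
  · exact h rfl
  · rintro ⟨j, h1, h2⟩
    exact hcon.2 j h1 h2

/-- the second generator -/
noncomputable def gen (S : Set ℕ) : Ω ≃o Ω := fib (fam S)

/-- the word which decides whether `j` is in `S` -/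
def Comm {G : Type} [Group G] (t h : G) (j : ℕ) : Prop :=
  h * (t ^ (2 * j + 1) * h * (t ^ (2 * j + 1))⁻¹) = t ^ (2 * j + 1) * h * (t ^ (2 * j + 1))⁻¹ * h

theorem comm_iff (S : Set ℕ) (j : ℕ) : Comm shift (gen S) j ↔ j ∉ S := by
  unfold Comm gen
  rw [conj_fib, fib_mul, fib_mul, fib_injective.eq_iff]
  push_cast
  constructor
  · intro h hj
    have h1 := congrFun h (2 * j + 1)
    beta_reduce at h1
    rw [sub_self, fam_zero, fam_pos hj] at h1
    exact not_commute h1
  · intro hj
    funext k
    by_cases h1 : fam S k = 1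
    · rw [h1, one_mul, mul_one]
    by_cases h2 : fam S (k - (2 * j + 1)) = 1
    · rw [h2, one_mul, mul_one]
    exfalso
    rcases fam_ne_one h1 with h3 | ⟨a, ha, h3⟩
    · rcases fam_ne_one h2 with h4 | ⟨b, -, h4⟩ <;> omega
    · rcases fam_ne_one h2 with h4 | ⟨b, -, h4⟩
      · have : a = j := by omega
        exact hj (this ▸ ha)
      · omega

/-- the two-generator group for the set `S` -/
abbrev Gp (S : Set ℕ) : Type := Subgroup.closure ({shift, gen S} : Set (Ω ≃o Ω))

/-- **Main theorem.** (1) No countable group `U` (right-orderable or not) contains copies of all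
two-generator right-orderable groups. (2) In particular there is no universal countable
right-orderable group. -/
theorem result :
    (∀ (U : Type) [Group U], Countable U → ∃ (G : Type) (_ : Group G), Countable G ∧
      RightOrderable G ∧ (∃ a b : G, Subgroup.closure {a, b} = ⊤) ∧
      ¬ ∃ f : G →* U, Function.Injective f) ∧
    ¬ ∃ (U : Type) (_ : Group U), IsUniversalCountableRightOrderable U := by
  have main : ∀ (U : Type) [Group U], Countable U → ∃ (G : Type) (_ : Group G), Countable G ∧
      RightOrderable G ∧ (∃ a b : G, Subgroup.closure {a, b} = ⊤) ∧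
      ¬ ∃ f : G →* U, Function.Injective f := by
    intro U _ hU
    have hmem : ∀ S, shift ∈ Subgroup.closure ({shift, gen S} : Set (Ω ≃o Ω)) := fun S =>
      Subgroup.subset_closure (by simp)
    have hmem' : ∀ S, gen S ∈ Subgroup.closure ({shift, gen S} : Set (Ω ≃o Ω)) := fun S =>
      Subgroup.subset_closure (by simp)
    by_contra hcon
    push Not at hcon
    have key : ∀ S : Set ℕ, ∃ f : Gp S →* U, Function.Injective f := by
      intro S
      refine hcon (Gp S) inferInstance ?_ ?_ ?_
      · exact countable_closure _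
      · exact (rightOrderable_aut Ω).of_injective (Subgroup.subtype _) Subtype.val_injective
      · refine ⟨⟨shift, hmem S⟩, ⟨gen S, hmem' S⟩, ?_⟩
        have h1 : ({⟨shift, hmem S⟩, ⟨gen S, hmem' S⟩} : Set (Gp S)) =
            Subtype.val ⁻¹' ({shift, gen S} : Set (Ω ≃o Ω)) := by
          ext x
          simp [Subtype.ext_iff]
        rw [h1]
        exact Subgroup.closure_closure_coe_preimage
    choose f hf using key
    have hinj : Function.Injective
        (fun S : Set ℕ => (f S ⟨shift, hmem S⟩, f S ⟨gen S, hmem' S⟩)) := by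
      have hcomm : ∀ (S : Set ℕ) (j : ℕ),
          Comm (f S ⟨shift, hmem S⟩) (f S ⟨gen S, hmem' S⟩) j ↔ j ∉ S := by
        intro S j
        rw [← comm_iff S j]
        unfold Comm
        rw [← map_pow, ← map_inv, ← map_mul, ← map_mul, ← map_mul, ← map_mul, (hf S).eq_iff,
          Subtype.ext_iff]
        rfl
      intro S T hST
      simp only [Prod.mk.injEq] at hST
      ext j
      have h1 := hcomm S j
      have h2 := hcomm T j
      rw [hST.1, hST.2] at h1
      exact not_iff_not.1 (h1.symm.trans h2)
    have hc : Countable (Set ℕ) := hinj.countable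
    obtain ⟨g, hg⟩ := exists_surjective_nat (Set ℕ)
    exact Function.cantor_surjective g hg
  refine ⟨main, ?_⟩
  rintro ⟨U, _, hU, -, huniv⟩
  obtain ⟨G, _, h1, h2, -, h3⟩ := main U hU
  obtain ⟨H, ⟨e⟩⟩ := huniv G h1 h2
  exact h3 ⟨H.subtype.comp e.toMonoidHom, H.subtype_injective.comp e.injective⟩

end Pool.Agent.Results.MP_49314d_al.NoUniversalH61
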